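import Mathlib
import Pool.Agent.Helper394.Circ

open Finset Filter Topology

namespace Pool.Agent.Results.MP_1e9518_pr.SeparationNoCutoff

noncomputable section

/-- The graph `G` is vertex-transitive: its automorphism group acts transitively. -/
def VertexTransitive {V : Type} (G : SimpleGraph V) : Prop :=
  ∀ x y : V, ∃ φ : G ≃g G, φ x = y

/-- Transition matrix `P = (1/2)(I + A/D)` of the lazy simple random walk on `G`. -/
def lazySRW {V : Type} [Fintype V] [DecidableEq V] (G : SimpleGraph V) [DecidableRel G.Adj] :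
    Matrix V V ℝ :=
  fun x y => (if x = y then 1 / 2 else 0) + (if G.Adj x y then 1 / (2 * (G.degree x : ℝ)) else 0)

/-- Total variation distance to stationarity, `d(t) = max_x ‖P^t(x,·) - π‖_TV` with `π` the
uniform distribution on `V`. -/
def d {V : Type} [Fintype V] [DecidableEq V] (P : Matrix V V ℝ) (t : ℕ) : ℝ :=
  ⨆ x : V, (1 / 2 : ℝ) * ∑ y, |(P ^ t) x y - 1 / (Fintype.card V : ℝ)|

/-- Total variation mixing time `T_mix(ε) = min {t : d(t) ≤ ε}`. -/
def Tmix {V : Type} [Fintype V] [DecidableEq V] (P : Matrix V V ℝ) (ε : ℝ) : ℕ :=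
  sInf {t : ℕ | d P t ≤ ε}

/-- Separation distance `s(t) = max_{x,y} (1 - P^t(x,y)/π(y))` with `π` uniform. -/
def sep {V : Type} [Fintype V] [DecidableEq V] (P : Matrix V V ℝ) (t : ℕ) : ℝ :=
  ⨆ p : V × V, (1 - (P ^ t) p.1 p.2 / (1 / (Fintype.card V : ℝ)))

/-- Separation mixing time `T_sep(ε) = min {t : s(t) ≤ ε}`. -/
def Tsep {V : Type} [Fintype V] [DecidableEq V] (P : Matrix V V ℝ) (ε : ℝ) : ℕ :=
  sInf {t : ℕ | sep P t ≤ ε}

/-- The second largest eigenvalue of an irreducible transition matrix `P` (for which the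
eigenvalue `1` is simple): the largest real eigenvalue different from `1`. -/
def lambda2 {V : Type} [Fintype V] [DecidableEq V] (P : Matrix V V ℝ) : ℝ :=
  sSup (spectrum ℝ P \ {1})

/-- Relaxation time `T_rel = 1 / (1 - λ₂)`. -/
def Trel {V : Type} [Fintype V] [DecidableEq V] (P : Matrix V V ℝ) : ℝ :=
  1 / (1 - lambda2 P)

/-- The product condition `T_mix / T_rel → ∞`, with `T_mix = T_mix(1/4)`. -/
def ProductCondition (V : ℕ → Type) [∀ n, Fintype (V n)] [∀ n, DecidableEq (V n)]
    (P : ∀ n, Matrix (V n) (V n) ℝ) : Prop :=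
  Tendsto (fun n => (Tmix (P n) (1 / 4) : ℝ) / Trel (P n)) atTop atTop

/-- Separation cutoff: `T_sep(ε) / T_sep(1-ε) → 1` for every fixed `ε ∈ (0,1/2)`. -/
def HasSeparationCutoff (V : ℕ → Type) [∀ n, Fintype (V n)] [∀ n, DecidableEq (V n)]
    (P : ∀ n, Matrix (V n) (V n) ℝ) : Prop :=
  ∀ ε : ℝ, 0 < ε → ε < 1 / 2 →
    Tendsto (fun n => (Tsep (P n) ε : ℝ) / (Tsep (P n) (1 - ε) : ℝ)) atTop (𝓝 1)

section

variable {G : Type} [AddCommGroup G] [Fintype G] [DecidableEq G]

theorem lazySRW_mulVec (S : Finset G) (h0 : (0 : G) ∉ S) (hn : ∀ s ∈ S, -s ∈ S) (f : G → ℝ) :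
    (lazySRW (Helper394.cay S h0 hn)).mulVec f = Helper394.V S f := by
  ext x
  rw [Helper394.V_apply, Helper394.U_apply]
  simp only [Matrix.mulVec, dotProduct, lazySRW, add_mul, ite_mul, zero_mul,
    Helper394.cay_degree, Helper394.cay_adj]
  rw [Finset.sum_add_distrib]
  congr 1
  · rw [Finset.sum_ite_eq univ x]
    simp
    ring
  · rw [← Finset.sum_filter]
    rw [div_div, Finset.sum_div]
    refine Finset.sum_bij' (fun y _ => y - x) (fun s _ => x + s) ?_ ?_ ?_ ?_ ?_
    · intro y hy; simpa using hy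
    · intro s hs; simpa using hs
    · intro y _; simp
    · intro s _; simp
    · intro y _
      simp only [add_sub_cancel]
      ring

end

/-- There are finite connected vertex-transitive graphs `G_n` with `|V_n| → ∞` whose lazy
simple random walks satisfy the product condition but have no separation cutoff. -/
theorem result :
    ∃ (V : ℕ → Type) (_ : ∀ n, Fintype (V n)) (_ : ∀ n, DecidableEq (V n))
      (G : ∀ n, SimpleGraph (V n)) (_ : ∀ n, DecidableRel (G n).Adj),
      Tendsto (fun n => Fintype.card (V n)) atTop atTop ∧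
      (∀ n, (G n).Connected) ∧
      (∀ n, VertexTransitive (G n)) ∧
      ProductCondition V (fun n => lazySRW (G n)) ∧
      ¬ HasSeparationCutoff V (fun n => lazySRW (G n)) := by
  choose N hN S hTN hS using fun n : ℕ => Helper394.exists_bad (n + 64) (by omega)
  let G : ∀ n, SimpleGraph (ZMod (N n)) := fun n => Helper394.cay (S n) (hS n).zero (hS n).neg
  have hP : ∀ n, ∀ f : ZMod (N n) → ℝ, (lazySRW (G n)).mulVec f = Helper394.V (S n) f :=
    fun n f => lazySRW_mulVec (S n) _ _ f
  have hcard : ∀ n, (0 : ℝ) < Fintype.card (ZMod (N n)) := fun n => by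
    exact_mod_cast Fintype.card_pos
  -- total variation
  have h1 : ∀ n, ∀ t ≤ n + 64, 1 / 2 < d (lazySRW (G n)) t := by
    intro n t ht
    have h := Helper394.fact_lower (hS n) (hP n) t ht
    have h' := Helper394.ciSup_ge_val
      (fun x : ZMod (N n) => (1 / 2 : ℝ) * ∑ y, |((lazySRW (G n)) ^ t) x y -
        1 / (Fintype.card (ZMod (N n)) : ℝ)|) 0
    have h'' : (17 / 32 : ℝ) ≤ d (lazySRW (G n)) t := h.trans h'
    linarith
  have h3 : ∀ n ε, 0 < ε → ∃ t, d (lazySRW (G n)) t ≤ ε := by
    intro n ε hε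
    have hG := hcard n
    obtain ⟨t, ht⟩ := Helper394.fact_conv (hS n) (hP n) (ε / Fintype.card (ZMod (N n)))
      (by positivity)
    refine ⟨t, ciSup_le fun x => ?_⟩
    calc (1 / 2 : ℝ) * ∑ y, |((lazySRW (G n)) ^ t) x y - 1 / (Fintype.card (ZMod (N n)) : ℝ)|
        ≤ (1 / 2 : ℝ) * ∑ _y : ZMod (N n), ε / Fintype.card (ZMod (N n)) := by
          gcongr with y
          exact ht x y
      _ = ε / 2 := by
          simp only [Finset.sum_const, Finset.card_univ, nsmul_eq_mul]
          field_simp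
      _ ≤ ε := by linarith
  -- separation
  have s1 : ∀ n, ∀ t ≤ n + 64, 1 / 2 < sep (lazySRW (G n)) t := by
    intro n t ht
    have hG := hcard n
    by_contra hcon
    push Not at hcon
    have h := Helper394.fact_lower (hS n) (hP n) t ht
    have h4 : ∀ y, (1 / 2 : ℝ) / (Fintype.card (ZMod (N n)) : ℝ) ≤ ((lazySRW (G n)) ^ t) 0 y := by
      intro y
      have h5 := (Helper394.ciSup_ge_val
        (fun p : ZMod (N n) × ZMod (N n) => (1 - ((lazySRW (G n)) ^ t) p.1 p.2 /
          (1 / (Fintype.card (ZMod (N n)) : ℝ)))) (0, y)).trans hcon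
      simp only [div_div_eq_mul_div, div_one] at h5
      rw [div_le_iff₀ hG]
      linarith
    have h6 := Helper394.tv_le _ (Helper394.row_sum (hS n) (hP n) t 0) (1 / 2) h4 (by norm_num)
    linarith
  have s2 : ∀ n, sep (lazySRW (G n)) (2 * ((n + 64) / 8) + 1) ≤ 1 - 1 / 2000 := by
    intro n
    have hG := hcard n
    apply ciSup_le
    intro p
    have h4 := Helper394.fact_minor (hS n) (hP n) ((n + 64) / 8) (by omega) p.1 p.2
    simp only [div_div_eq_mul_div, div_one]
    rw [div_le_iff₀ hG] at h4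
    linarith
  have s3 : ∀ n ε, 0 < ε → ∃ t, sep (lazySRW (G n)) t ≤ ε := by
    intro n ε hε
    have hG := hcard n
    obtain ⟨t, ht⟩ := Helper394.fact_conv (hS n) (hP n) (ε / Fintype.card (ZMod (N n)))
      (by positivity)
    refine ⟨t, ciSup_le fun p => ?_⟩
    have h4 := (abs_le.mp (ht p.1 p.2)).1
    simp only [div_div_eq_mul_div, div_one]
    have h5 := mul_le_mul_of_nonneg_right h4 hG.le
    have e1 : -(ε / (Fintype.card (ZMod (N n)) : ℝ)) * (Fintype.card (ZMod (N n)) : ℝ) = -ε := by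
      field_simp
    have e2 : (((lazySRW (G n)) ^ t) p.1 p.2 - 1 / (Fintype.card (ZMod (N n)) : ℝ)) *
        (Fintype.card (ZMod (N n)) : ℝ) =
        ((lazySRW (G n)) ^ t) p.1 p.2 * (Fintype.card (ZMod (N n)) : ℝ) - 1 := by
      field_simp
    rw [e1, e2] at h5
    linarith
  refine ⟨fun n => ZMod (N n), fun n => inferInstance, fun n => inferInstance, G,
    fun n => inferInstance, ?_, ?_, ?_, ?_, ?_⟩
  · refine tendsto_atTop_mono (fun n => ?_) tendsto_id
    rw [ZMod.card]
    have := hTN n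
    simp only [id]
    omega
  · exact fun n => Helper394.cay_connected (hS n)
  · exact fun n x y => Helper394.cay_transitive _ _ _ x y
  · apply Helper394.tendsto_div_of
    · intro n
      exact Helper394.sInf_gt _ (n + 64) _ (by norm_num) (h1 n) (h3 n _ (by norm_num))
    · intro n
      obtain ⟨h4, h5⟩ := Helper394.lam2_bound (lazySRW (G n))
        (fun lam hlam hne => Helper394.fact_spec (hS n) (hP n) lam hlam hne)
      have h6 : 0 < 1 - lambda2 (lazySRW (G n)) := by
        have : lambda2 (lazySRW (G n)) ≤ 7 / 8 := h5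
        linarith
      refine ⟨one_div_pos.mpr h6, ?_⟩
      rw [Trel, div_le_iff₀ h6]
      have : lambda2 (lazySRW (G n)) ≤ 7 / 8 := h5
      linarith
  · intro hcut
    exact Helper394.no_cutoff_of (fun n => sep (lazySRW (G n))) s1 s2 s3
      (hcut (1 / 2000) (by norm_num) (by norm_num))

end

end Pool.Agent.Results.MP_1e9518_pr.SeparationNoCutoff
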